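import Pool.Agent.MIso.Main

/-!
# The isomorphism problem for finitely generated metabelian groups is generically soluble

One partial recursive function on pairs of finite metabelian presentations which is never wrong and
halts on all but a vanishing share of the second presentations, uniformly in the first presentation.
-/

set_option autoImplicit false

namespace Pool.Agent.Results.MP_760942_al.GenericIsomorphism

open Pool.Agent.MIso

/-- There is a partial recursive function on pairs of finite metabelian presentations with value
true exactly when the groups are isomorphic and value false exactly when some finite metabelian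
group receives different numbers of homomorphisms from the two groups (which are then not
isomorphic), and undefined otherwise. For all `n` and all `m ≥ 1` the share of the presentations
with `n` generators and `m` relators of length at most `l` on which, as second argument, it does not
halt, tends to zero, uniformly in the first argument; and it halts on all but a vanishing share of
the pairs of presentations of any two shapes. -/
theorem result :
    ∃ f : Pres × Pres →. Bool, Partrec f ∧
      (∀ P P', true ∈ f (P, P') ↔ Nonempty (Met P ≃* Met P')) ∧
      (∀ P P', false ∈ f (P, P') ↔ MIso.Sep P P') ∧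
      (∀ P P', MIso.Sep P P' → ¬ Nonempty (Met P ≃* Met P')) ∧
      (∀ n m : ℕ, 1 ≤ m → ∀ ε : ℝ, 0 < ε → ∃ L : ℕ, ∀ l ≥ L, ∀ P : Pres,
        (Nat.card {r : Fin m → Words n l // ¬ (f (P, pres r)).Dom} : ℝ)
          ≤ ε * (Nat.card (Words n l) : ℝ) ^ m) ∧
      (∀ n m n' m' : ℕ, ∀ ε : ℝ, 0 < ε → ∃ L : ℕ, ∀ l ≥ L, ∀ l' ≥ L,
        (Nat.card {z : (Fin m → Words n l) × (Fin m' → Words n' l') //
            ¬ (f (pres z.1, pres z.2)).Dom} : ℝ)
          ≤ ε * (Nat.card (Words n l) : ℝ) ^ m * (Nat.card (Words n' l') : ℝ) ^ m') :=
  main

end Pool.Agent.Results.MP_760942_al.GenericIsomorphism
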