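import Pool.Agent.Lib_helper53.MET.Conj

/-!
MP_760942_al: the isomorphism problem for finitely generated metabelian groups is many-one equivalent to the
similarity problem for matrices over Laurent polynomial rings up to monomial changes of variables, to the
isomorphism problem of finitely presented modules over these rings up to such changes, to the isomorphism problem
of the rings `L_k ⋉ M`, and to its own restriction to torsion-free split groups; it reduces to conjugacy in
`GL_m(L_k) ⋊ GL_k(ℤ)` of elements `1 + N`, `N² = 0`, of `GL_m(L_k)`.

All definitions used in the statement are in `Pool.Agent.Lib_helper53.MET.Stmt`.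
-/

namespace Pool.Agent.Results.MP_760942_al.MatrixSimilarity

open Pool.Agent.MET Pool.Agent.MET.Stmt

/-- `MetabelianIso` (the predicate of `S01939`) is many-one equivalent to `Similar`, `SemiIso` and `SplitRingIso`;
it is reduced to `Similar` for pairs of square-zero matrices `N`, `N'`, to conjugacy of `1 + N` and `1 + N'` in
`GL_m(L_k) ⋊ GL_k(ℤ)`, and to its own restriction to pairs of torsion-free groups `M ⋊ ℤ^K`. -/
theorem result :
    ManyOneEquiv MetabelianIso Similar ∧
    ManyOneEquiv MetabelianIso Stmt.SemiIso ∧
    ManyOneEquiv MetabelianIso Stmt.SplitRingIso ∧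
    (∃ f : GroupCode × GroupCode → MatCode, Computable f ∧ ∀ p,
      SquareZero (f p) ∧ (MetabelianIso p ↔ Similar (f p)) ∧ (MetabelianIso p ↔ Conjugate (f p))) ∧
    (∃ g : GroupCode × GroupCode → GroupCode × GroupCode, Computable g ∧ ∀ p,
      SplitPres (g p).1 ∧ SplitPres (g p).2 ∧ (MetabelianIso p ↔ MetabelianIso (g p))) :=
  ⟨⟨met_le_sim, sim_le_met⟩, ⟨met_le_semi, semi_le_met⟩, ⟨met_le_splitRing, splitRing_le_met⟩,
    square_zero, split⟩

end Pool.Agent.Results.MP_760942_al.MatrixSimilarity
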