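import Pool.Agent.Lib_helper53.MET.Bridge

/-!
MP_760942_al: isomorphism of finitely presented modules over Laurent polynomial rings reduces to isomorphism of
finitely generated metabelian groups, and this reduces to isomorphism of finitely generated commutative rings.

All definitions used in the statement are in `Pool.Agent.Lib_helper53.MET.Stmt`.
-/

namespace Pool.Agent.Results.MP_760942_al.Sandwich

open Pool.Agent.MET Pool.Agent.MET.Stmt

/-- Module isomorphism over Laurent polynomial rings `≤` metabelian isomorphism `≤` ring isomorphism. -/
theorem result : Stmt.LinIso ≤₀ MetabelianIso ∧ MetabelianIso ≤₀ Stmt.RingIso :=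
  ⟨lin_le_met, met_le_ring⟩

end Pool.Agent.Results.MP_760942_al.Sandwich
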